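import Pool.Agent.helper57.PP.Spec
import Pool.Agent.helper62.KU.TRE

/-!
# Project pp, row ORD: the cyclic ordering
-/

set_option autoImplicit false

namespace Pool.Agent.helper57.PP

open Finset

/-- the residue modulo three -/
def ORD_ka (m : ℕ) : Fin 3 := ⟨m % 3, Nat.mod_lt _ (by norm_num)⟩

theorem ORD_ka_mod (m : ℕ) : ORD_ka (m % 3) = ORD_ka m := by
  unfold ORD_ka
  simp

theorem ORD_ka_succ (m : ℕ) : ORD_ka (m + 1) = ORD_ka m + 1 := by
  apply Fin.ext
  unfold ORD_ka
  rw [Fin.val_add]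
  show (m + 1) % 3 = (m % 3 + 1) % 3
  omega

theorem ORD_ka_val (k : Fin 3) : ORD_ka k.1 = k := by
  apply Fin.ext
  unfold ORD_ka
  exact Nat.mod_eq_of_lt k.2

theorem ORD_divmod (n K l : ℕ) (hl : l < n) :
    ((K * n + l) % (3 * n)) / n = K % 3 ∧ ((K * n + l) % (3 * n)) % n = l := by
  have hn : 0 < n := by omega
  have h1 : K * n + l = 3 * n * (K / 3) + ((K % 3) * n + l) := by
    have h2 : K = 3 * (K / 3) + K % 3 := (Nat.div_add_mod K 3).symm
    calc K * n + l = (3 * (K / 3) + K % 3) * n + l := by rw [← h2]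
      _ = _ := by ring
  have h3 : (K % 3) * n + l < 3 * n := by
    have h4 : K % 3 ≤ 2 := by omega
    have h5 : (K % 3) * n ≤ 2 * n := Nat.mul_le_mul_right n h4
    omega
  rw [h1, Nat.mul_add_mod, Nat.mod_eq_of_lt h3]
  constructor
  · rw [mul_comm, Nat.mul_add_div hn, Nat.div_eq_of_lt hl, add_zero]
  · rw [mul_comm, Nat.mul_add_mod, Nat.mod_eq_of_lt hl]

/-- the vertices different from `s`, sorted by `φ` -/
theorem ORD_sort (V : Type) [Fintype V] [DecidableEq V] (s : V) (φ : V → ℚ)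
    (hφ : ∀ u v, u ≠ s → v ≠ s → φ u = φ v → u = v) :
    ∃ w : ℕ → V, (∀ i, i < Fintype.card V - 1 → w i ≠ s) ∧
      (∀ i j, i < j → j < Fintype.card V - 1 → φ (w i) < φ (w j)) ∧
      ∀ v, v ≠ s → ∃ i, i < Fintype.card V - 1 ∧ w i = v := by
  obtain ⟨A, hA⟩ : ∃ A, A = (univ.erase s).image φ := ⟨_, rfl⟩
  have hcard : A.card = Fintype.card V - 1 := by
    rw [hA, card_image_of_injOn, card_erase_of_mem (mem_univ s), card_univ]
    intro u hu v hv h
    exact hφ u v (ne_of_mem_erase hu) (ne_of_mem_erase hv) h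
  have hex : ∀ i : Fin (Fintype.card V - 1), ∃ v, v ≠ s ∧
      φ v = ((A.orderIsoOfFin hcard i : A) : ℚ) := by
    intro i
    have hmem : ∀ a ∈ A, ∃ v, v ≠ s ∧ φ v = a := by
      intro a ha
      rw [hA, mem_image] at ha
      obtain ⟨v, hv, hv2⟩ := ha
      exact ⟨v, ne_of_mem_erase hv, hv2⟩
    exact hmem _ (A.orderIsoOfFin hcard i).2
  choose w hw1 hw2 using hex
  refine ⟨fun i => if h : i < Fintype.card V - 1 then w ⟨i, h⟩ else s, ?_, ?_, ?_⟩
  · intro i hi
    simp only [hi, dif_pos]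
    exact hw1 _
  · intro i j hij hj
    have hi : i < Fintype.card V - 1 := hij.trans hj
    simp only [hi, hj, dif_pos]
    rw [hw2, hw2]
    have h3 : (A.orderIsoOfFin hcard ⟨i, hi⟩) < (A.orderIsoOfFin hcard ⟨j, hj⟩) :=
      (A.orderIsoOfFin hcard).strictMono hij
    exact h3
  · intro v hv
    have h1 : φ v ∈ A := by
      rw [hA]
      exact mem_image_of_mem _ (mem_erase.2 ⟨hv, mem_univ v⟩)
    obtain ⟨i, hi⟩ := (A.orderIsoOfFin hcard).surjective ⟨φ v, h1⟩
    refine ⟨i.1, i.2, ?_⟩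
    simp only [i.2, dif_pos]
    refine hφ _ _ (hw1 _) hv ?_
    rw [hw2]
    show ((A.orderIsoOfFin hcard i : A) : ℚ) = φ v
    rw [hi]

theorem ORD : ORD_stmt := by
  intro V _ _ s T φ hφ hT hr
  obtain ⟨w, hw1, hw2, hw3⟩ := ORD_sort V s φ hφ
  obtain ⟨n, hn⟩ : ∃ n, n = Fintype.card V - 1 := ⟨_, rfl⟩
  rw [← hn] at hw1 hw2 hw3 ⊢
  have hwinj : ∀ i j, i < n → j < n → w i = w j → i = j := by
    intro i j hi hj h
    rcases lt_trichotomy i j with h1 | h1 | h1
    · have := hw2 i j h1 hj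
      rw [h] at this
      exact absurd this (lt_irrefl _)
    · exact h1
    · have := hw2 j i h1 hi
      rw [h] at this
      exact absurd this (lt_irrefl _)
  let E : ℕ → ℕ → Sym2 V := fun K l => s(w l, T (ORD_ka K) (w l))
  let e : Fin (3 * n) → Sym2 V := fun x => E (x.1 / n) (x.1 % n)
  have hpos : ∀ x : Fin (3 * n), 0 < n := fun x => by
    have := x.2
    omega
  -- the value of `e`
  have he : ∀ (x : Fin (3 * n)) (K l : ℕ), l < n → x.1 = (K * n + l) % (3 * n) → e x = E K l := by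
    intro x K l hl hx
    obtain ⟨h1, h2⟩ := ORD_divmod n K l hl
    show E (x.1 / n) (x.1 % n) = E K l
    rw [hx, h1, h2]
    show s(w l, T (ORD_ka (K % 3)) (w l)) = s(w l, T (ORD_ka K) (w l))
    rw [ORD_ka_mod]
  refine ⟨e, ?_, ?_, ?_⟩
  · intro x y hxy
    have hx := hpos x
    have hxm := Nat.mod_lt x.1 hx
    have hym := Nat.mod_lt y.1 hx
    have h1 := hT (ORD_ka (x.1 / n)) (ORD_ka (y.1 / n)) (w (x.1 % n)) (w (y.1 % n))
      (hw1 _ hxm) (hw1 _ hym) hxy
    obtain ⟨h2, h3⟩ := h1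
    have h4 := hwinj _ _ hxm hym h3
    have h5 : (x.1 / n) % 3 = (y.1 / n) % 3 := congrArg Fin.val h2
    have hx3 : x.1 / n < 3 := (Nat.div_lt_iff_lt_mul hx).2 x.2
    have hy3 : y.1 / n < 3 := (Nat.div_lt_iff_lt_mul hx).2 y.2
    rw [Nat.mod_eq_of_lt hx3, Nat.mod_eq_of_lt hy3] at h5
    apply Fin.ext
    rw [← Nat.div_add_mod x.1 n, ← Nat.div_add_mod y.1 n, h4, h5]
  · intro z
    constructor
    · rintro ⟨x, rfl⟩
      exact ⟨ORD_ka (x.1 / n), w (x.1 % n), hw1 _ (Nat.mod_lt _ (hpos x)), rfl⟩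
    · rintro ⟨k, v, hv, rfl⟩
      obtain ⟨l, hl, rfl⟩ := hw3 v hv
      have hlt : k.1 * n + l < 3 * n := by
        have h1 : k.1 * n ≤ 2 * n := Nat.mul_le_mul_right n (by omega)
        omega
      refine ⟨⟨k.1 * n + l, hlt⟩, ?_⟩
      rw [he ⟨k.1 * n + l, hlt⟩ k.1 l hl (Nat.mod_eq_of_lt hlt).symm]
      show s(w l, T (ORD_ka k.1) (w l)) = _
      rw [ORD_ka_val]
  · intro j
    have hj := hpos j
    obtain ⟨i, hi⟩ : ∃ i, i = j.1 % n := ⟨_, rfl⟩
    obtain ⟨K, hK⟩ : ∃ K, K = j.1 / n := ⟨_, rfl⟩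
    have hin : i < n := by rw [hi]; exact Nat.mod_lt _ hj
    have hjK : j.1 = K * n + i := by
      calc j.1 = n * (j.1 / n) + j.1 % n := (Nat.div_add_mod j.1 n).symm
        _ = K * n + i := by rw [hi, hK]; ring
    -- the threshold
    obtain ⟨c, hc1, hc2⟩ : ∃ c : ℚ, (∀ l, l < i → φ (w l) ≤ c) ∧ ∀ l, i ≤ l → l < n → c < φ (w l) := by
      rcases Nat.eq_zero_or_pos i with h0 | h0
      · refine ⟨φ (w 0) - 1, fun l hl => by omega, fun l _ hl => ?_⟩
        rcases Nat.eq_zero_or_pos l with h1 | h1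
        · rw [h1]
          linarith
        · have := hw2 0 l h1 hl
          linarith
      · refine ⟨φ (w (i - 1)), fun l hl => ?_, fun l hl hl2 => hw2 _ _ (by omega) hl2⟩
        rcases Nat.lt_or_ge l (i - 1) with h1 | h1
        · exact (hw2 _ _ h1 (by omega)).le
        · have : l = i - 1 := by omega
          rw [this]
    obtain ⟨r, hr'⟩ := hr (ORD_ka K) c
    have htree := Pool.Agent.KU.TRE V s
      (fun v => if φ v ≤ c then T (ORD_ka K + 1) v else T (ORD_ka K) v) r hr'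
    have hset : {z | ∃ i < n, z = cyc e j i} = {z | ∃ v, v ≠ s ∧
        z = s(v, (fun v => if φ v ≤ c then T (ORD_ka K + 1) v else T (ORD_ka K) v) v)} := by
      ext z
      constructor
      · rintro ⟨t, ht, rfl⟩
        by_cases hit : i + t < n
        · refine ⟨w (i + t), hw1 _ hit, ?_⟩
          have h1 : ¬ φ (w (i + t)) ≤ c := not_le.2 (hc2 _ (by omega) hit)
          show e ⟨(j.1 + t) % (3 * n), _⟩ = _
          rw [he ⟨(j.1 + t) % (3 * n), Nat.mod_lt _ j.pos⟩ K (i + t) hit (by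
            show (j.1 + t) % (3 * n) = (K * n + (i + t)) % (3 * n)
            rw [hjK, add_assoc])]
          show s(w (i + t), T (ORD_ka K) (w (i + t))) =
            s(w (i + t), if φ (w (i + t)) ≤ c then T (ORD_ka K + 1) (w (i + t))
              else T (ORD_ka K) (w (i + t)))
          rw [if_neg h1]
        · have hl : i + t - n < n := by omega
          refine ⟨w (i + t - n), hw1 _ hl, ?_⟩
          have h1 : φ (w (i + t - n)) ≤ c := hc1 _ (by omega)
          show e ⟨(j.1 + t) % (3 * n), _⟩ = _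
          rw [he ⟨(j.1 + t) % (3 * n), Nat.mod_lt _ j.pos⟩ (K + 1) (i + t - n) hl (by
            show (j.1 + t) % (3 * n) = ((K + 1) * n + (i + t - n)) % (3 * n)
            congr 1
            rw [hjK, add_mul, one_mul]
            omega)]
          show s(w (i + t - n), T (ORD_ka (K + 1)) (w (i + t - n))) =
            s(w (i + t - n), if φ (w (i + t - n)) ≤ c then T (ORD_ka K + 1) (w (i + t - n))
              else T (ORD_ka K) (w (i + t - n)))
          rw [if_pos h1, ORD_ka_succ]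
      · rintro ⟨v, hv, rfl⟩
        obtain ⟨l, hl, rfl⟩ := hw3 v hv
        by_cases hil : i ≤ l
        · refine ⟨l - i, by omega, ?_⟩
          have h1 : ¬ φ (w l) ≤ c := not_le.2 (hc2 _ hil hl)
          symm
          show e ⟨(j.1 + (l - i)) % (3 * n), _⟩ = _
          rw [he ⟨(j.1 + (l - i)) % (3 * n), Nat.mod_lt _ j.pos⟩ K l hl (by
            show (j.1 + (l - i)) % (3 * n) = (K * n + l) % (3 * n)
            congr 1
            rw [hjK]
            omega)]
          show s(w l, T (ORD_ka K) (w l)) =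
            s(w l, if φ (w l) ≤ c then T (ORD_ka K + 1) (w l) else T (ORD_ka K) (w l))
          rw [if_neg h1]
        · refine ⟨l + n - i, by omega, ?_⟩
          have h1 : φ (w l) ≤ c := hc1 _ (by omega)
          symm
          show e ⟨(j.1 + (l + n - i)) % (3 * n), _⟩ = _
          rw [he ⟨(j.1 + (l + n - i)) % (3 * n), Nat.mod_lt _ j.pos⟩ (K + 1) l hl (by
            show (j.1 + (l + n - i)) % (3 * n) = ((K + 1) * n + l) % (3 * n)
            congr 1
            rw [hjK, add_mul, one_mul]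
            omega)]
          show s(w l, T (ORD_ka (K + 1)) (w l)) =
            s(w l, if φ (w l) ≤ c then T (ORD_ka K + 1) (w l) else T (ORD_ka K) (w l))
          rw [if_pos h1, ORD_ka_succ]
    rw [hset]
    exact htree

end Pool.Agent.helper57.PP
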